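import Pool.Agent.H390.Limit

/-!
# The exact value of `C_n` for every degree

For every `n ≥ 1` the sharp constant `C_n` in `max |P| ≤ C_n (n/2π) ∫ |P|` equals `π / (2 n τ)`, where
`τ ∈ (0, π/2)` is the parameter for which the explicit recurrence

  `cosh ψ₀ = 1 / cos τ`, `sinh ψ₀ = tan τ`,
  `x_k = (τ / (k+1)) ∑_{j ≤ k} cosh ψ_j`,  `ψ_{k+1} = ψ_k + log ((1 + x_k) / (1 - x_k))`

satisfies `x_k < 1` for `k < n - 1` and `x_{n-1} = 1`.  (For `n = 1` this says `τ = cos τ`.)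
-/

namespace Pool.Agent.Results.MP_f9c8ff_an.EveryDegree

open Filter Topology Set
open scoped Real

/-- The real trigonometric polynomial
`a₀/2 + ∑_{k=1}^n (a_k cos kθ + b_k sin kθ)` of degree at most `n`. -/
noncomputable def trigPoly (n : ℕ) (a b : ℕ → ℝ) (θ : ℝ) : ℝ :=
  a 0 / 2 + ∑ k ∈ Finset.Icc 1 n, (a k * Real.cos (k * θ) + b k * Real.sin (k * θ))

/-- The constants `K` such that `|P(θ)| ≤ K · (n / 2π) ∫_{-π}^{π} |P|` for every trigonometric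
polynomial `P` of degree at most `n` and every `θ`. -/
def admissible (n : ℕ) : Set ℝ :=
  {K : ℝ | ∀ (a b : ℕ → ℝ) (θ : ℝ),
    |trigPoly n a b θ| ≤ K * ((n / (2 * π)) * ∫ t in (-π)..π, |trigPoly n a b t|)}

/-- The recurrence with parameter `τ` first reaches the value `1` at the index `n - 1`. -/
def IsCritical (n : ℕ) (τ : ℝ) (ψ x : ℕ → ℝ) : Prop :=
  0 < τ ∧ τ < π / 2 ∧
  Real.cosh (ψ 0) * Real.cos τ = 1 ∧ Real.sinh (ψ 0) * Real.cos τ = Real.sin τ ∧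
  (∀ k, k < n → ((k:ℝ) + 1) * x k = τ * ∑ j ∈ Finset.range (k+1), Real.cosh (ψ j)) ∧
  (∀ k, k + 1 < n → ψ (k+1) = ψ k + Real.log ((1 + x k) / (1 - x k))) ∧
  (∀ k, k + 1 < n → x k < 1) ∧ x (n-1) = 1

/-- For every `n ≥ 1` there is a critical parameter `τ`, and `π / (2 n τ)` is the smallest constant
in the inequality for degree `n`. -/
theorem result (n : ℕ) (hn : 1 ≤ n) :
    (∃ (τ : ℝ) (ψ x : ℕ → ℝ), IsCritical n τ ψ x) ∧
    ∀ (τ : ℝ) (ψ x : ℕ → ℝ), IsCritical n τ ψ x → IsLeast (admissible n) (π / (2 * n * τ)) := by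
  constructor
  · obtain ⟨τ, hs, hx⟩ := Pool.Agent.H390.exists_sys (n := n) (by omega)
    exact ⟨τ, _, _, hs.τ_pos, hs.τ_lt, hs.cosh0, hs.sinh0, hs.hx, hs.hψ, hs.hlt, hx⟩
  · rintro τ ψ x ⟨h1, h2, h3, h4, h5, h6, h7, h8⟩
    exact Pool.Agent.H390.isLeast_admissible (by omega) ⟨h1, h2, h3, h4, h5, h6, h7⟩ h8

end Pool.Agent.Results.MP_f9c8ff_an.EveryDegree
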