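import Pool.Agent.H390.Hook.Num

/-!
# The sharp asymptotic constant in the `L¹`-to-sup Nikolskii inequality

For real trigonometric polynomials `P` of degree at most `n`, let `C_n` be the smallest constant in
`max |P| ≤ C_n · (n / 2π) ∫_{-π}^{π} |P|`, and let `C = limsup C_n`.  We prove

  `C = π / (4 y₀)`,

where `y₀` is the least positive zero of the entire function

  `F(y) = ∑_λ ∏_{□ ∈ λ} (-1)^{h(□)} y / h(□)²`

(sum over all partitions `λ`, product over the cells of the Young diagram of `λ`, `h` the hook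
length).  Moreover `4 y₀` is the blow-up point of the solution
`ψ(r) = 2 log (F(-r/4) / F(r/4))` of the initial value problem `(r ψ')' = cosh ψ`, `ψ(0) = 0`, that is
of the third Painlevé equation (degenerate type `D₈`) for `e^ψ`.  The first twenty decimals are
`C = 1.08185764380366117878…`.
-/

namespace Pool.Agent.Results.MP_f9c8ff_an.ExactValue

open Filter Topology Set
open scoped Real

/-- The real trigonometric polynomial
`a₀/2 + ∑_{k=1}^n (a_k cos kθ + b_k sin kθ)` of degree at most `n`. -/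
noncomputable def trigPoly (n : ℕ) (a b : ℕ → ℝ) (θ : ℝ) : ℝ :=
  a 0 / 2 + ∑ k ∈ Finset.Icc 1 n, (a k * Real.cos (k * θ) + b k * Real.sin (k * θ))

/-- `C_n`: the smallest constant `K` such that `|P(θ)| ≤ K · (n / 2π) ∫_{-π}^{π} |P|` for every
trigonometric polynomial `P` of degree at most `n` and every `θ`. -/
noncomputable def nikolskii (n : ℕ) : ℝ :=
  sInf {K : ℝ | ∀ (a b : ℕ → ℝ) (θ : ℝ),
    |trigPoly n a b θ| ≤ K * ((n / (2 * π)) * ∫ t in (-π)..π, |trigPoly n a b t|)}

/-- The asymptotic sharp constant `C = limsup C_n`. -/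
noncomputable def C : ℝ := limsup nikolskii atTop

/-- The hook length of the cell `c = (i, j)` of the Young diagram `μ` (`i` the row, `j` the column,
both counted from `0`): the number of cells of row `i` in the columns `≥ j`, plus the number of cells
of column `j` in the rows `≥ i`, minus one. -/
def hookLength (μ : YoungDiagram) (c : ℕ × ℕ) : ℕ :=
  (μ.rowLen c.1 - c.2) + (μ.colLen c.2 - c.1) - 1

/-- The product over the cells `c` of `μ` of `(-1)^h y / h²`, where `h` is the hook length of `c`. -/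
noncomputable def hookTerm (μ : YoungDiagram) (y : ℝ) : ℝ :=
  ∏ c ∈ μ.cells, ((-1) ^ hookLength μ c * y / (hookLength μ c : ℝ) ^ 2)

/-- `F(y) = ∑_λ ∏_{□ ∈ λ} (-1)^{h(□)} y / h(□)²`, the sum being over all partitions. -/
noncomputable def F (y : ℝ) : ℝ := ∑' μ : YoungDiagram, hookTerm μ y

/-- `ψ` is a solution of `(r ψ')' = cosh ψ` on `(0, R)`, continuous on `[0, R)`, with `ψ(0) = 0`, and
`ψ(r) → +∞` as `r` increases to `R`. -/
def IsBlowupSolution (R : ℝ) (ψ : ℝ → ℝ) : Prop :=
  0 < R ∧ ContinuousOn ψ (Ico 0 R) ∧ ψ 0 = 0 ∧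
  (∀ r ∈ Ioo 0 R, DifferentiableAt ℝ ψ r ∧
    HasDerivAt (fun s => s * deriv ψ s) (Real.cosh (ψ r)) r) ∧
  Tendsto ψ (𝓝[<] R) atTop

/-- The series `F` converges absolutely everywhere, it has a least positive zero `y₀`, and
`C = lim C_n = π / (4 y₀)`.  Also `4 y₀` is the blow-up point of `(r ψ')' = cosh ψ`, `ψ(0) = 0`, and
`C = 1.08185764380366117878…`. -/
theorem result :
    (∀ y : ℝ, Summable fun μ : YoungDiagram => |hookTerm μ y|) ∧
    ∃ y₀ : ℝ, IsLeast {y : ℝ | 0 < y ∧ F y = 0} y₀ ∧
      Tendsto nikolskii atTop (𝓝 (π / (4 * y₀))) ∧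
      C = π / (4 * y₀) ∧
      IsBlowupSolution (4 * y₀) (fun r => 2 * Real.log (F (-(r / 4)) / F (r / 4))) ∧
      (∀ (R : ℝ) (ψ : ℝ → ℝ), IsBlowupSolution R ψ → R = 4 * y₀) ∧
      1.08185764380366117878 < C ∧ C < 1.08185764380366117879 := by
  have e : nikolskii = Pool.Agent.H390.nikC := rfl
  have ht : ∀ (μ : YoungDiagram) (y : ℝ), hookTerm μ y = Pool.Agent.H390.Hook.term (-1) y μ := by
    intro μ y
    unfold hookTerm Pool.Agent.H390.Hook.term Pool.Agent.H390.Hook.pw
    refine Finset.prod_congr rfl fun c _ => ?_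
    change (-1) ^ Pool.Agent.H390.Hook.hookLen μ c * y / (Pool.Agent.H390.Hook.hookLen μ c : ℝ) ^ 2 = _
    ring
  have hF : ∀ y, F y = Pool.Agent.H390.Hook.Fh y := by
    intro y
    unfold F
    rw [tsum_congr (fun μ => ht μ y)]
    exact Pool.Agent.H390.Hook.tsum_term Pool.Agent.H390.Hook.em y
  refine ⟨?_, ?_⟩
  · intro y
    have h := (Pool.Agent.H390.Hook.summable_term Pool.Agent.H390.Hook.em y).abs
    exact h.congr fun μ => by rw [ht μ y]
  · obtain ⟨y₀, hy, h1, hb, hl⟩ := Pool.Agent.H390.Hook.hook_constant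
    have hset : {y : ℝ | 0 < y ∧ F y = 0} = Pool.Agent.H390.Hook.Zs := by
      ext y
      unfold Pool.Agent.H390.Hook.Zs
      rw [Set.mem_ofPred_eq, Set.mem_ofPred_eq, hF]
    have hC : C = π / (4 * y₀) := by
      rw [C, e]; exact hl.limsup_eq
    have hy0 : 0 < y₀ := hy.1.1
    refine ⟨y₀, by rw [hset]; exact hy, by rw [e]; exact hl, hC, ?_, ?_, ?_, ?_⟩
    · have hψ : ∀ r ∈ Ico 0 (4 * y₀), 2 * Real.log (F (-(r / 4)) / F (r / 4)) =
          Pool.Agent.H390.Hook.psi r := by
        intro r hr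
        have hpos : 0 < F (r / 4) := by
          rw [hF]
          exact Pool.Agent.H390.Hook.Fh_pos hy (by linarith [hr.1]) (by linarith [hr.2])
        have hG : 1 ≤ F (-(r / 4)) := by
          rw [hF]
          exact Pool.Agent.H390.Hook.Gh_ge (by linarith [hr.1]) (by linarith [hr.2])
        rw [Real.log_div (by linarith) hpos.ne']
        unfold Pool.Agent.H390.Hook.psi
        rw [hF, hF]
        rfl
      exact Pool.Agent.H390.Hook.IsBlowup_congr hb hψ
    · intro R ψ h
      have h2 : Pool.Agent.H390.IsBlowup R ψ := h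
      have h3 := Pool.Agent.H390.tendsto_nikC h2.facts
      have h4 := tendsto_nhds_unique h3 hl
      have hR : 0 < R := h.1
      rw [div_eq_div_iff hR.ne' (by positivity)] at h4
      exact (mul_left_cancel₀ Real.pi_pos.ne' h4).symm
    · rw [hC]; exact (Pool.Agent.H390.Hook.C_bounds hy).1
    · rw [hC]; exact (Pool.Agent.H390.Hook.C_bounds hy).2

end Pool.Agent.Results.MP_f9c8ff_an.ExactValue
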